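import Pool.Agent.Lib.MP_4f3acd_an.RNAtoms
import Pool.Agent.Lib.MP_4f3acd_an.RNCounter

set_option autoImplicit false

open MeasureTheory Pool.Agent.Lib.MP_4f3acd_an.RN

/-- Over a given base, random sequential upper semicontinuity and upper semicontinuity for the
locally L0-convex topology agree for all sigma-stable set-valued maps between sigma-stable subsets
of random normed modules exactly when the base has only finitely many atoms. -/
theorem Pool.Agent.Results.MP_4f3acd_an.Atoms.result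
    (𝕜 : Type) [RCLike 𝕜] (Ω : Type) [MeasurableSpace Ω] (P : Measure Ω)
    [IsProbabilityMeasure P] :
    (∀ (E₁ E₂ : Type) [AddCommGroup E₁] [AddCommGroup E₂] (M₁ : RNMod P 𝕜 E₁) (M₂ : RNMod P 𝕜 E₂)
      (X : Set E₁) (Y : Set E₂) (F : E₁ → Set E₂),
      StableSet M₁ X → StableSet M₂ Y → StableMap M₁ M₂ X Y F →
        (UscRS M₁ M₂ X F ↔ UscC M₁ M₂ X F)) ↔
    ¬ ∃ a : ℕ → Set Ω, (∀ n, IsAtom P (a n)) ∧ Pairwise fun m n => Disjoint (a m) (a n) := by
  constructor
  · rintro h ⟨a, ha, hd⟩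
    obtain ⟨M, F, h1, h2, h3, h4⟩ := counter 𝕜 a ha hd
    exact h4 ((h _ _ M M _ _ F h1 h1 h2).1 h3)
  · intro hfin E₁ E₂ _ _ M₁ M₂ X Y F hX hY hF
    exact ⟨uscC_of_uscRS (good_of hX hY hF) hfin, uscRS_of_uscC (good_of hX hY hF)⟩
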