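import Pool.Agent.Lib.MP_4f3acd_an.RNSum

set_option autoImplicit false

open MeasureTheory Pool.Agent.Lib.MP_4f3acd_an.RN

/-- If the neighbourhoods of the value are its enlargements by neighbourhoods of zero, the two
kinds of upper semicontinuity agree for all sigma-stable maps over every base. -/
theorem Pool.Agent.Results.MP_4f3acd_an.Hausdorff.result
    (𝕜 : Type) [RCLike 𝕜] (Ω : Type) [MeasurableSpace Ω] (P : Measure Ω)
    [IsProbabilityMeasure P] (E₁ E₂ : Type) [AddCommGroup E₁] [AddCommGroup E₂]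
    (M₁ : RNMod P 𝕜 E₁) (M₂ : RNMod P 𝕜 E₂) (X : Set E₁) (Y : Set E₂) (F : E₁ → Set E₂)
    (hX : StableSet M₁ X) (hY : StableSet M₂ Y) (hF : StableMap M₁ M₂ X Y F) :
    HuscRS M₁ M₂ X F ↔ HuscC M₁ M₂ X F :=
  ⟨huscC_of_huscRS (good_of hX hY hF), huscRS_of_huscC (good_of hX hY hF)⟩
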