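import Pool.Agent.Lib.MP_4f3acd_an.RNStable

set_option autoImplicit false

open MeasureTheory Pool.Agent.Lib.MP_4f3acd_an.RN

/-- If upper semicontinuity for the locally L0-convex topology is tested only on open sets with
sigma-stable trace on Y, it agrees with random sequential upper semicontinuity for all sigma-stable
set-valued maps exactly when every event has probability zero or one. -/
theorem Pool.Agent.Results.MP_4f3acd_an.StableNbhd.result
    (𝕜 : Type) [RCLike 𝕜] (Ω : Type) [MeasurableSpace Ω] (P : Measure Ω)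
    [IsProbabilityMeasure P] :
    (∀ (E₁ E₂ : Type) [AddCommGroup E₁] [AddCommGroup E₂] (M₁ : RNMod P 𝕜 E₁) (M₂ : RNMod P 𝕜 E₂)
      (X : Set E₁) (Y : Set E₂) (F : E₁ → Set E₂),
      StableSet M₁ X → StableSet M₂ Y → StableMap M₁ M₂ X Y F →
        (UscRS M₁ M₂ X F ↔ UscS M₁ M₂ X Y F)) ↔
    ∀ a, MeasurableSet a → P a = 0 ∨ P a = 1 := by
  constructor
  · intro h a ha
    by_contra hc
    rw [not_or] at hc
    refine agreeOn_not_uscRS (𝕜 := 𝕜) ha hc.1 (fun h1 => hc.2 ((prob_compl_eq_zero_iff ha).1 h1))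
      ((h _ _ _ _ _ _ _ selfMod_stable selfMod_stable (agreeOn_stable a)).2 (agreeOn_uscS ha))
  · intro h E₁ E₂ _ _ M₁ M₂ X Y F hX hY hF
    exact iff_of_trivial h hX hY hF
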