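import Pool.Agent.Lib.MP_4f3acd_an.Proof

set_option autoImplicit false

open MeasureTheory Pool.Agent.Lib.MP_4f3acd_an

/-- On a countably infinite discrete probability space, the closed random unit ball map on L0 is
sigma-stable and random sequentially upper semicontinuous, but not upper semicontinuous for the
locally L0-convex topology. -/
theorem Pool.Agent.Results.MP_4f3acd_an.UnitBall.result
    (𝕜 : Type) [RCLike 𝕜] (P : Measure ℕ) [IsProbabilityMeasure P] (hP : ∀ n, P {n} ≠ 0)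
    (F : (ℕ →ₘ[P] 𝕜) → Set (ℕ →ₘ[P] 𝕜)) (hF : ∀ x, F x = {y | ∀ᵐ ω ∂P, ‖y ω - x ω‖ ≤ 1}) :
    (∀ x, (F x).Nonempty) ∧ SigmaStable F ∧ UscRS F ∧ ¬ UscC F := by
  obtain rfl : F = fun x => {y | ∀ᵐ ω ∂P, ‖y ω - x ω‖ ≤ 1} := funext hF
  exact ⟨ball_nonempty, ball_sigmaStable, ball_uscRS hP, ball_not_uscC hP⟩
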